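import Pool.Agent.Helper73.RFn.GoalsH

/-! # Project RFn (MP_c98eff_gt, n ≥ 4): packet FIN, assembly of the theorem -/

set_option autoImplicit false

open Finset Pool.Agent.Helper47.RFn Pool.Agent.Helper73.RFn Filter Topology

namespace Pool.Agent.Helper38.RFn.FIN

variable {n : ℕ}

/-! ### congruence off the origin -/

theorem ed_congr {f f' : EE n → ℝ} (h : ∀ x, x ≠ 0 → f x = f' x) (i : Fin (n + 1)) {x : EE n}
    (hx : x ≠ 0) : ed i f x = ed i f' x := by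
  have h1 : f =ᶠ[𝓝 x] f' := by
    filter_upwards [isOpen_compl_singleton.mem_nhds hx] with y hy using h y hy
  unfold ed pd
  rw [h1.fderiv_eq]

theorem Fdc_congr {A A' : MF n} (hA : ∀ x, x ≠ 0 → A x = A' x) {f f' : EE n → ℝ}
    (h : ∀ x, x ≠ 0 → f x = f' x) (a : Fin (n + 1)) {x : EE n} (hx : x ≠ 0) :
    Fdc A a f x = Fdc A' a f' x := by
  simp only [Fdc, hA x hx, ed_congr h _ hx]

theorem nfc_congr {A A' : MF n} (hA : ∀ x, x ≠ 0 → A x = A' x) (a : Fin (n + 1)) {x : EE n}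
    (hx : x ≠ 0) : nfc A a x = nfc A' a x := by
  simp only [nfc, hA x hx]

theorem Cc_congr {A θ A' θ' : MF n} (hA : ∀ x, x ≠ 0 → A x = A' x) (ht : ∀ x, x ≠ 0 → θ x = θ' x)
    (a b c : Fin (n + 1)) {x : EE n} (hx : x ≠ 0) : Cc A θ a b c x = Cc A' θ' a b c x := by
  have e : ∀ a b j, Fdc A a (fun y => A y b j) x = Fdc A' a (fun y => A' y b j) x :=
    fun a b j => Fdc_congr hA (fun y hy => by rw [hA y hy]) a hx
  simp only [Cc, e, ht x hx, nfc_congr hA _ hx]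

theorem Gamc_congr {A θ A' θ' : MF n} (hA : ∀ x, x ≠ 0 → A x = A' x) (ht : ∀ x, x ≠ 0 → θ x = θ' x)
    (a b c : Fin (n + 1)) {x : EE n} (hx : x ≠ 0) : Gamc A θ a b c x = Gamc A' θ' a b c x := by
  simp only [Gamc, Cc_congr hA ht _ _ _ hx]

theorem Kf_congr {A θ A' θ' : MF n} (hA : ∀ x, x ≠ 0 → A x = A' x) (ht : ∀ x, x ≠ 0 → θ x = θ' x)
    (a b c d : Fin (n + 1)) {x : EE n} (hx : x ≠ 0) : Kf A θ a b c d x = Kf A' θ' a b c d x := by
  have e : ∀ a b c d, Fdc A a (Gamc A θ b c d) x = Fdc A' a (Gamc A' θ' b c d) x :=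
    fun a b c d => Fdc_congr hA (fun y hy => Gamc_congr hA ht b c d hy) a hx
  simp only [Kf, e, Gamc_congr hA ht _ _ _ hx, Cc_congr hA ht _ _ _ hx]

theorem Rf_congr {A θ A' θ' : MF n} (hA : ∀ x, x ≠ 0 → A x = A' x) (ht : ∀ x, x ≠ 0 → θ x = θ' x)
    (a b c d : Fin (n + 1)) {x : EE n} (hx : x ≠ 0) : Rf A θ a b c d x = Rf A' θ' a b c d x := by
  simp only [Rf, Kf_congr hA ht _ _ _ _ hx]

theorem lamf_congr {A θ A' θ' : MF n} (hA : ∀ x, x ≠ 0 → A x = A' x) (ht : ∀ x, x ≠ 0 → θ x = θ' x)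
    {x : EE n} (hx : x ≠ 0) : lamf A θ x = lamf A' θ' x := by
  simp only [lamf, Rcf, Rf_congr hA ht _ _ _ _ hx]

theorem PinF_congr {δ : ℝ} {A θ A' θ' : MF n} {x y : EE n} (h1 : ∀ a, nfc A a x = nfc A' a y)
    (h2 : ∀ a b c d, Rf A θ a b c d x = Rf A' θ' a b c d y) (h : PinF δ A' θ' y) : PinF δ A θ x := by
  intro ι hι
  have e1 : (fun a => nfc A a x) = fun a => nfc A' a y := funext h1
  have e2 : (fun a b c d => Rf A θ a b c d x) = fun a b c d => Rf A' θ' a b c d y := by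
    funext a b c d
    exact h2 a b c d
  rw [e1] at hι
  rw [e2]
  exact h ι hι

theorem glen_congr {g g' : MF n} (h : ∀ x, x ≠ 0 → g x = g' x) {c : ℝ → EE n}
    (hc : ∀ t, ‖c t‖ = 1) : glen g c = glen g' c := by
  have hne : ∀ t, c t ≠ 0 := by
    intro t h0
    have := hc t
    rw [h0, norm_zero] at this
    exact zero_ne_one this
  simp only [glen, speed, ip, h _ (hne _)]

theorem gdist_congr {g g' : MF n} (h : ∀ x, x ≠ 0 → g x = g' x) (x y : EE n) :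
    gdist g x y = gdist g' x y := by
  unfold gdist
  congr 1
  ext r
  constructor
  · rintro ⟨c, hc, hr⟩
    exact ⟨c, hc, by rw [hr, glen_congr h hc.2.1]⟩
  · rintro ⟨c, hc, hr⟩
    exact ⟨c, hc, by rw [hr, glen_congr h hc.2.1]⟩

theorem gdiam_congr {g g' : MF n} (h : ∀ x, x ≠ 0 → g x = g' x) : gdiam g = gdiam g' := by
  simp only [gdiam, gdist_congr h]

theorem gvol_congr {g g' : MF n} (h : ∀ x, x ≠ 0 → g x = g' x) : gvol g = gvol g' := by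
  unfold gvol integ
  congr 1
  refine MeasureTheory.setIntegral_congr_ae Metric.isOpen_ball.measurableSet ?_
  have h0 : ∀ᵐ x : EE n, x ≠ 0 := by
    have : ({0}ᶜ : Set (EE n)) ∈ MeasureTheory.ae MeasureTheory.volume :=
      MeasureTheory.compl_mem_ae_iff.2 (MeasureTheory.measure_singleton 0)
    exact this
  filter_upwards [h0] with x hx _
  rw [h x hx]

/-! ### homogeneity and compactness -/

theorem unit_of {x : EE n} (hx : x ≠ 0) : 0 < ‖x‖⁻¹ ∧ ‖‖x‖⁻¹ • x‖ = 1 := by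
  have h1 : 0 < ‖x‖ := norm_pos_iff.2 hx
  refine ⟨inv_pos.2 h1, ?_⟩
  rw [norm_smul, norm_inv, norm_norm, inv_mul_cancel₀ h1.ne']

theorem e1_norm : ‖(EuclideanSpace.single (0 : Fin (n + 1)) (1 : ℝ) : EE n)‖ = 1 := by
  simp

theorem exists_min {f : EE n → ℝ} (hf : Sm f) (hpos : ∀ x, x ≠ 0 → 0 < f x) :
    ∃ l0 : ℝ, 0 < l0 ∧ ∀ x, x ≠ 0 → l0 ≤ f x := by
  have hK : IsCompact (Metric.sphere (0 : EE n) 1) := isCompact_sphere 0 1
  have hne : (Metric.sphere (0 : EE n) 1).Nonempty :=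
    ⟨EuclideanSpace.single (0 : Fin (n + 1)) (1 : ℝ), by simp⟩
  have hsub : Metric.sphere (0 : EE n) 1 ⊆ {0}ᶜ := by
    intro x hx h0
    rw [Set.mem_singleton_iff.1 h0] at hx
    simp at hx
  obtain ⟨p, hp, hmin⟩ := hK.exists_isMinOn hne (hf.cd.continuousOn.mono hsub)
  have hp0 : p ≠ 0 := by
    rintro rfl
    simp at hp
  refine ⟨f p, hpos p hp0, fun x hx => ?_⟩
  obtain ⟨h1, h2⟩ := unit_of hx
  have h3 := hmin (show ‖x‖⁻¹ • x ∈ Metric.sphere (0 : EE n) 1 by simpa using h2)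
  simp only [Set.mem_ofPred_eq] at h3
  rw [hf.hom _ _ h1] at h3
  exact h3

theorem fam_bdd {T : ℝ} {f : ℝ → EE n → ℝ} (hf : SmFam (Set.Ico 0 T) f) {t2 : ℝ}
    (h2 : t2 < T) : ∃ B : ℝ, ∀ t, 0 ≤ t → t ≤ t2 → ∀ x, x ≠ 0 → f t x ≤ B := by
  have hK : IsCompact (Set.Icc (0 : ℝ) t2 ×ˢ Metric.sphere (0 : EE n) 1) :=
    isCompact_Icc.prod (isCompact_sphere 0 1)
  have hsub : Set.Icc (0 : ℝ) t2 ×ˢ Metric.sphere (0 : EE n) 1 ⊆ Set.Ico 0 T ×ˢ {0}ᶜ := by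
    rintro ⟨t, x⟩ ⟨ht, hx⟩
    refine ⟨⟨ht.1, lt_of_le_of_lt ht.2 h2⟩, ?_⟩
    intro h0
    have hx0 : x = 0 := h0
    rw [hx0] at hx
    simp at hx
  obtain ⟨B, hB⟩ := hK.exists_bound_of_continuousOn ((hf.cont []).mono hsub)
  refine ⟨B, fun t ht0 ht2 x hx => ?_⟩
  obtain ⟨h3, h4⟩ := unit_of hx
  have h5 := hB (t, ‖x‖⁻¹ • x) ⟨⟨ht0, ht2⟩, by simpa using h4⟩
  have h6 : Ew [] (f t) (‖x‖⁻¹ • x) = f t x :=
    (hf.sm t ⟨ht0, lt_of_le_of_lt ht2 h2⟩).hom _ _ h3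
  simp only at h5
  rw [h6, Real.norm_eq_abs] at h5
  exact (le_abs_self _).trans h5

/-! ### monotonicity -/

theorem pinchedAt_mono {δ δ' : ℝ} {G : MF n} {x : EE n} (hd : δ' ≤ δ) (h : PinchedAt δ G x) :
    PinchedAt δ' G x := by
  intro u v u' v' hu hv hu' hv' hl hl'
  obtain ⟨h1, h2⟩ := h u v u' v' hu hv hu' hv' hl hl'
  obtain ⟨h3, -⟩ := h u' v' u v hu' hv' hu hv hl' hl
  exact ⟨h1, lt_of_le_of_lt (mul_le_mul_of_nonneg_right hd h3.le) h2⟩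

theorem good_mono {T l0 C C' σ : ℝ} {A θ : ℝ → MF n} (hl : 0 < l0) (hC : 1 ≤ C) (hCC : C ≤ C')
    (h : Good T l0 C σ A θ) : Good T l0 C' σ A θ := by
  have hpos : ∀ t, 0 ≤ t → t < T → ∀ x, x ≠ 0 → 0 < lamf (A t) (θ t) x := fun t h0 h1 x hx =>
    lt_of_lt_of_le hl (h.p1 t h0 h1 x hx).1
  refine ⟨?_, ?_, ?_, h.s2, ?_⟩
  · intro t h0 h1 x hx
    refine ⟨(h.p1 t h0 h1 x hx).1, fun a b c d => ((h.p1 t h0 h1 x hx).2 a b c d).trans ?_⟩
    exact mul_le_mul_of_nonneg_right hCC (hpos t h0 h1 x hx).le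
  · intro t h0 h1 x hx
    exact (h.p2 t h0 h1 x hx).trans (mul_le_mul_of_nonneg_right hCC (sq_nonneg _))
  · intro t Q h0 h1 hQ hCQ x hx
    obtain ⟨h2, h3⟩ := h.p3 t Q h0 h1 hQ (hCC.trans hCQ) x hx
    have hQ0 : 0 < Q := lt_of_lt_of_le (hpos t h0.le h1 x hx) (hQ x hx)
    have hr : 0 ≤ (t * Q) ^ (-σ) := Real.rpow_nonneg (by positivity) _
    refine ⟨h2.trans ?_, h3.trans ?_⟩
    · exact mul_le_mul_of_nonneg_right (mul_le_mul_of_nonneg_right hCC hr) (by positivity)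
    · exact mul_le_mul_of_nonneg_right (mul_le_mul_of_nonneg_right hCC hr) (by positivity)
  · intro t1 Q1 e h0 h1 hQ1 he hQ hE hB
    refine le_trans ?_ (h.s3 t1 Q1 e h0 h1 hQ1 he hQ hE hB)
    have h4 : 0 < T - t1 := by linarith
    have h5 : 0 < (2 + C * e) * (T - t1) := by
      have : 0 ≤ C * e := mul_nonneg (by linarith) he
      positivity
    apply one_div_le_one_div_of_le h5
    apply mul_le_mul_of_nonneg_right _ h4.le
    have := mul_le_mul_of_nonneg_right hCC he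
    linarith

theorem last_mono {T C C' σ τ : ℝ} {A θ : ℝ → MF n} (hC : 1 ≤ C) (hCC : C ≤ C')
    (h : Last T C σ τ A θ) : Last T C' σ τ A θ := by
  have hτ : 0 < τ := h.pos.1
  refine ⟨h.pos, ⟨?_, h.len.2⟩, ?_, ?_, ?_⟩
  · refine le_trans ?_ h.len.1
    exact div_le_div_of_nonneg_left hτ.le (by linarith) hCC
  · intro t h0 h1 x hx
    exact (h.bef t h0 h1 x hx).trans hCC
  · intro t h0 h1 x hx
    obtain ⟨h2, h3⟩ := h.aft t h0 h1 x hx
    have h4 : 0 < T - t := by linarith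
    have h5 : 0 ≤ (2 * (T - t) / τ) ^ (σ / 2) := Real.rpow_nonneg (by positivity) _
    have h6 : C * (2 * (T - t) / τ) ^ (σ / 2) / (T - t) ≤
        C' * (2 * (T - t) / τ) ^ (σ / 2) / (T - t) :=
      div_le_div_of_nonneg_right (mul_le_mul_of_nonneg_right hCC h5) h4.le
    exact ⟨h2.trans h6, fun a b c d => (h3 a b c d).trans h6⟩
  · intro x y hx hy
    exact (h.dis x y hx hy).trans (mul_le_mul_of_nonneg_right hCC (Real.sqrt_nonneg _))

theorem fin : FinStmt := by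
  intro hLoc hCon hMx hLp hVlb hDia hHeat hCho hPin hFhm hDbd hcur hlam
  obtain ⟨hExc, hExd, hGlu, hMax⟩ := hMx
  intro n δ0 hn hδ0
  obtain ⟨δ, hδd⟩ : ∃ δ : ℝ, δ = min δ0 1 := ⟨_, rfl⟩
  have hδ4 : 1 / 4 < δ := by rw [hδd]; exact lt_min hδ0 (by norm_num)
  have hδ1 : δ ≤ 1 := by rw [hδd]; exact min_le_right _ _
  have hδle : δ ≤ δ0 := by rw [hδd]; exact min_le_left _ _
  obtain ⟨C, σ, hC, hσ, hσ1, hGd⟩ := hCon n hn δ hδ4 hδ1
  obtain ⟨C1, hC1, hLP⟩ := hLp n C σ hn hC hσ hσ1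
  obtain ⟨v0, hv0, hV⟩ := hVlb n C1 σ hn hC1 hσ hσ1
  obtain ⟨Cm, hCm⟩ : ∃ Cm : ℝ, Cm = max C C1 := ⟨_, rfl⟩
  have hCm1 : C ≤ Cm := by rw [hCm]; exact le_max_left _ _
  have hCm2 : C1 ≤ Cm := by rw [hCm]; exact le_max_right _ _
  obtain ⟨C2, hC2, hD⟩ := hDia hHeat n Cm σ hn (hC.trans hCm1) hσ hσ1
  refine ⟨v0 / C2 ^ n, by positivity, ?_⟩
  intro G hG hpin
  obtain ⟨A0, θ0, hF0, hgO⟩ := hCho n G hG
  have hgO' : gOf θ0 = G := funext hgO
  obtain ⟨hfh, hfl⟩ := hFhm n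
  obtain ⟨-, -, -, hSR, -, hSl, -, -, hSn, -⟩ := hfh A0 θ0 hF0
  have hK : ∀ a b c d x, x ≠ 0 → Kf A0 θ0 a b c d x = -Kf A0 θ0 a b d c x := by
    intro a b c d x hx
    have h1 := (hcur n A0 θ0 hF0 x hx).1.a34 a b c d
    simp only [Rf] at h1
    linarith
  have hPF : ∀ x, x ≠ 0 → PinF δ A0 θ0 x := by
    intro x hx
    obtain ⟨h1, h2⟩ := unit_of hx
    have h3 : PinF δ A0 θ0 (‖x‖⁻¹ • x) := by
      apply hPin n A0 θ0 hF0 hK δ _ h2
      rw [hgO']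
      exact pinchedAt_mono hδle (hpin _ h2)
    refine PinF_congr (fun a => ?_) (fun a b c d => ?_) h3
    · exact ((hSn a).hom _ _ h1).symm
    · exact ((hSR a b c d).hom _ _ h1).symm
  have hlp0 : ∀ x, x ≠ 0 → 0 < lamf A0 θ0 x := fun x hx => hlam n δ A0 θ0 hn hδ4 hδ1 hF0 x hx (hPF x hx)
  obtain ⟨l0, hl0, hl0'⟩ := exists_min hSl hlp0
  -- every flow is good
  have hGoodAll : ∀ (T : ℝ) (A θ : ℝ → MF n), 0 < T → FFlow (Set.Ico 0 T) A θ →
      (∀ x, x ≠ 0 → A 0 x = A0 x ∧ θ 0 x = θ0 x) → Good T l0 C σ A θ := by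
    intro T A θ hT hf hin
    have hA : ∀ x, x ≠ 0 → A 0 x = A0 x := fun x hx => (hin x hx).1
    have ht : ∀ x, x ≠ 0 → θ 0 x = θ0 x := fun x hx => (hin x hx).2
    refine hGd T l0 A θ hT hl0 hf fun x hx => ⟨?_, ?_⟩
    · rw [lamf_congr hA ht hx]
      exact hl0' x hx
    · exact PinF_congr (fun a => nfc_congr hA a hx) (fun a b c d => Rf_congr hA ht a b c d hx)
        (hPF x hx)
  have hTb : ∀ (T : ℝ) (A θ : ℝ → MF n), 0 < T → FFlow (Set.Ico 0 T) A θ →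
      (∀ x, x ≠ 0 → A 0 x = A0 x ∧ θ 0 x = θ0 x) → T ≤ 1 / (2 * l0) := by
    intro T A θ hT hf hin
    by_contra hlt
    push Not at hlt
    have hG := hGoodAll T A θ hT hf hin
    have hb : 0 < 1 / (2 * l0) := by positivity
    obtain ⟨t1, ht1⟩ : ∃ t1 : ℝ, t1 = (T - 1 / (2 * l0)) / 2 := ⟨_, rfl⟩
    have h1 : 0 < t1 := by rw [ht1]; linarith
    have h2 : t1 < T := by rw [ht1]; linarith
    have h3 := (hG.s2 t1 l0 h1 h2 hl0 (fun x hx => (hG.p1 t1 h1.le h2 x hx).1)).2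
    have h4 : 1 / (2 * l0) < T - t1 := by rw [ht1]; linarith
    have h5 : 0 < T - t1 := by linarith
    rw [le_div_iff₀ (by positivity)] at h3
    rw [div_lt_iff₀ (by positivity)] at h4
    nlinarith
  obtain ⟨T, A, θ, hT, hf, hin, hunb⟩ := hMax hLoc hExc hExd hGlu n A0 θ0 (1 / (2 * l0)) (by omega)
    hF0 hTb
  have hG0 := hGoodAll T A θ hT hf hin
  have hlp : ∀ t, 0 ≤ t → t < T → ∀ x, x ≠ 0 → 0 < lamf (A t) (θ t) x := fun t h0 h1 x hx =>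
    lt_of_lt_of_le hl0 (hG0.p1 t h0 h1 x hx).1
  obtain ⟨hfrm, -, -, hfaml, -⟩ := hfl (Set.Ico 0 T) A θ hf
  have hBl : Blow T A θ := by
    intro K t2 ht2
    obtain ⟨B, hB⟩ := fam_bdd hfaml (t2 := max t2 0) (max_lt ht2 hT)
    obtain ⟨t, x, h0, h1, hx, a, b, c, d, hK'⟩ := hunb (C * max B K)
    have h2 : max B K < lamf (A t) (θ t) x := by
      have h3 := (hG0.p1 t h0 h1 x hx).2 a b c d
      have h4 := lt_of_lt_of_le hK' h3
      exact lt_of_mul_lt_mul_left h4 (by linarith)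
    have h3 : max t2 0 < t := by
      by_contra h4
      push Not at h4
      have := hB t h0 h4 x hx
      exact absurd (lt_of_le_of_lt (le_max_left B K) h2) (not_lt.2 this)
    exact ⟨t, x, lt_of_le_of_lt (le_max_right _ _) h3, lt_of_le_of_lt (le_max_left _ _) h3, h1, hx,
      lt_of_le_of_lt (le_max_right B K) h2⟩
  obtain ⟨τ, hL⟩ := hLP T l0 A θ hT hl0 hf hG0 hBl
  have hvol := hV T τ A θ hf hL (fun t h0 h1 x hx => (hlp t h0 h1 x hx).le)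
  have hdia := hD T l0 τ A θ hl0 hf (good_mono hl0 hC hCm1 hG0) (last_mono hC1 hCm2 hL)
  have hg0 : ∀ x, x ≠ 0 → gOf (θ 0) x = G x := by
    intro x hx
    rw [← hgO']
    simp only [gOf, (hin x hx).2]
  rw [gdiam_congr hg0] at hdia
  rw [gvol_congr hg0] at hvol
  have hdpos : 0 ≤ gdiam G := by
    obtain ⟨-, h1, h2, -⟩ := hDbd n G (by omega) hG
    exact (h1 _ _).trans (h2 (EuclideanSpace.single 0 1) (EuclideanSpace.single 0 1) (by simp) (by simp))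
  have hpow : gdiam G ^ n ≤ (C2 * Real.sqrt τ) ^ n := pow_le_pow_left₀ hdpos hdia n
  calc v0 / C2 ^ n * gdiam G ^ n ≤ v0 / C2 ^ n * (C2 * Real.sqrt τ) ^ n :=
        mul_le_mul_of_nonneg_left hpow (by positivity)
    _ = v0 * Real.sqrt τ ^ n := by
        rw [mul_pow]
        field_simp
    _ ≤ gvol G := hvol

end Pool.Agent.Helper38.RFn.FIN
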