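import Pool.Agent.Helper47.RFn.Alg

/-!
# Packet BG of project RFn: Berger's inequality
-/

namespace Pool.Agent.Helper47.RFn

open Finset

namespace BGaux

variable {n : ℕ}

/-- the 4-linear form of a tensor -/
def F (R : T4 n) (x y z w : Fin n → ℝ) : ℝ :=
  ∑ a, ∑ b, ∑ c, ∑ d, R a b c d * x a * y b * z c * w d

theorem K2_eq (R : T4 n) (u v : Fin n → ℝ) : K2 R u v = F R u v u v := rfl

theorem rot (h : Fin n → Fin n → Fin n → ℝ) :
    ∑ a, ∑ b, ∑ c, h b c a = ∑ a, ∑ b, ∑ c, h a b c := by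
  rw [Finset.sum_comm]
  refine sum_congr rfl fun b _ => ?_
  rw [Finset.sum_comm]

theorem F_a12 {R : T4 n} (hR : IsCurv R) (x y z w : Fin n → ℝ) :
    F R x y z w = - F R y x z w := by
  unfold F
  rw [Finset.sum_comm, ← Finset.sum_neg_distrib]
  refine sum_congr rfl fun a _ => ?_
  rw [← Finset.sum_neg_distrib]
  refine sum_congr rfl fun b _ => ?_
  rw [← Finset.sum_neg_distrib]
  refine sum_congr rfl fun c _ => ?_
  rw [← Finset.sum_neg_distrib]
  refine sum_congr rfl fun d _ => ?_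
  rw [hR.a12 b a c d]
  ring

theorem F_pair {R : T4 n} (hR : IsCurv R) (x y z w : Fin n → ℝ) :
    F R x y z w = F R z w x y := by
  unfold F
  have h1 : ∀ f : Fin n → Fin n → Fin n → Fin n → ℝ,
      ∑ a, ∑ b, ∑ c, ∑ d, f a b c d = ∑ c, ∑ d, ∑ a, ∑ b, f a b c d := by
    intro f
    have e1 : ∀ a, ∑ b, ∑ c, ∑ d, f a b c d = ∑ c, ∑ d, ∑ b, f a b c d := by
      intro a
      rw [Finset.sum_comm]
      refine sum_congr rfl fun c _ => ?_
      rw [Finset.sum_comm]
    rw [sum_congr rfl fun a _ => e1 a, Finset.sum_comm]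
    refine sum_congr rfl fun c _ => ?_
    rw [Finset.sum_comm]
  rw [h1]
  refine sum_congr rfl fun a _ => sum_congr rfl fun b _ => sum_congr rfl fun c _ =>
    sum_congr rfl fun d _ => ?_
  rw [hR.pair c d a b]
  ring

theorem F_bian {R : T4 n} (hR : IsCurv R) (x y z w : Fin n → ℝ) :
    F R x y z w + F R y z x w + F R z x y w = 0 := by
  have e1 : F R y z x w = ∑ a, ∑ b, ∑ c, ∑ d, R b c a d * x a * y b * z c * w d := by
    unfold F
    rw [← rot (fun a b c => ∑ d, R a b c d * y a * z b * x c * w d)]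
    refine sum_congr rfl fun a _ => sum_congr rfl fun b _ => sum_congr rfl fun c _ =>
      sum_congr rfl fun d _ => ?_
    ring
  have e2 : F R z x y w = ∑ a, ∑ b, ∑ c, ∑ d, R c a b d * x a * y b * z c * w d := by
    unfold F
    rw [← rot (fun a b c => ∑ d, R a b c d * z a * x b * y c * w d),
      ← rot (fun a b c => ∑ d, R b c a d * z b * x c * y a * w d)]
    refine sum_congr rfl fun a _ => sum_congr rfl fun b _ => sum_congr rfl fun c _ =>
      sum_congr rfl fun d _ => ?_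
    ring
  rw [e1, e2]
  unfold F
  rw [← sum_add_distrib, ← sum_add_distrib]
  refine sum_eq_zero fun a _ => ?_
  rw [← sum_add_distrib, ← sum_add_distrib]
  refine sum_eq_zero fun b _ => ?_
  rw [← sum_add_distrib, ← sum_add_distrib]
  refine sum_eq_zero fun c _ => ?_
  rw [← sum_add_distrib, ← sum_add_distrib]
  refine sum_eq_zero fun d _ => ?_
  have := hR.bian a b c d
  linear_combination (x a * y b * z c * w d) * this

theorem F_polar1 (R : T4 n) (x y z : Fin n → ℝ) :
    F R (x + z) y (x + z) y - F R (x - z) y (x - z) y = 2 * (F R x y z y + F R z y x y) := by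
  unfold F
  rw [← sum_sub_distrib, ← sum_add_distrib, mul_sum]
  refine sum_congr rfl fun a _ => ?_
  rw [← sum_sub_distrib, ← sum_add_distrib, mul_sum]
  refine sum_congr rfl fun b _ => ?_
  rw [← sum_sub_distrib, ← sum_add_distrib, mul_sum]
  refine sum_congr rfl fun c _ => ?_
  rw [← sum_sub_distrib, ← sum_add_distrib, mul_sum]
  refine sum_congr rfl fun d _ => ?_
  simp only [Pi.add_apply, Pi.sub_apply]
  ring

theorem F_polar2 (R : T4 n) (x y z w : Fin n → ℝ) :
    F R x (y + w) z (y + w) - F R x (y - w) z (y - w) = 2 * (F R x y z w + F R x w z y) := by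
  unfold F
  rw [← sum_sub_distrib, ← sum_add_distrib, mul_sum]
  refine sum_congr rfl fun a _ => ?_
  rw [← sum_sub_distrib, ← sum_add_distrib, mul_sum]
  refine sum_congr rfl fun b _ => ?_
  rw [← sum_sub_distrib, ← sum_add_distrib, mul_sum]
  refine sum_congr rfl fun c _ => ?_
  rw [← sum_sub_distrib, ← sum_add_distrib, mul_sum]
  refine sum_congr rfl fun d _ => ?_
  simp only [Pi.add_apply, Pi.sub_apply]
  ring

theorem F_smul13 (R : T4 n) (s : ℝ) (x y z w : Fin n → ℝ) :
    F R (s • x) y (s • z) w = s ^ 2 * F R x y z w := by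
  unfold F
  rw [mul_sum]
  refine sum_congr rfl fun a _ => ?_
  rw [mul_sum]
  refine sum_congr rfl fun b _ => ?_
  rw [mul_sum]
  refine sum_congr rfl fun c _ => ?_
  rw [mul_sum]
  refine sum_congr rfl fun d _ => ?_
  simp only [Pi.smul_apply, smul_eq_mul]
  ring

theorem F_smul24 (R : T4 n) (s : ℝ) (x y z w : Fin n → ℝ) :
    F R x (s • y) z (s • w) = s ^ 2 * F R x y z w := by
  unfold F
  rw [mul_sum]
  refine sum_congr rfl fun a _ => ?_
  rw [mul_sum]
  refine sum_congr rfl fun b _ => ?_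
  rw [mul_sum]
  refine sum_congr rfl fun c _ => ?_
  rw [mul_sum]
  refine sum_congr rfl fun d _ => ?_
  simp only [Pi.smul_apply, smul_eq_mul]
  ring

/-- inner product -/
def ip (u v : Fin n → ℝ) : ℝ := ∑ i, u i * v i

theorem nrm_ip (u : Fin n → ℝ) : nrm u = ip u u := by
  unfold nrm ip
  exact sum_congr rfl fun i _ => by ring

theorem ip_comm (u v : Fin n → ℝ) : ip u v = ip v u := by
  unfold ip
  exact sum_congr rfl fun i _ => by ring

theorem ip_add_left (u v w : Fin n → ℝ) : ip (u + v) w = ip u w + ip v w := by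
  unfold ip
  rw [← sum_add_distrib]
  exact sum_congr rfl fun i _ => by simp only [Pi.add_apply]; ring

theorem ip_sub_left (u v w : Fin n → ℝ) : ip (u - v) w = ip u w - ip v w := by
  unfold ip
  rw [← sum_sub_distrib]
  exact sum_congr rfl fun i _ => by simp only [Pi.sub_apply]; ring

theorem ip_add_right (u v w : Fin n → ℝ) : ip w (u + v) = ip w u + ip w v := by
  rw [ip_comm, ip_add_left, ip_comm u, ip_comm v]

theorem ip_sub_right (u v w : Fin n → ℝ) : ip w (u - v) = ip w u - ip w v := by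
  rw [ip_comm, ip_sub_left, ip_comm u, ip_comm v]

theorem ip_smul_left (s : ℝ) (u w : Fin n → ℝ) : ip (s • u) w = s * ip u w := by
  unfold ip
  rw [mul_sum]
  exact sum_congr rfl fun i _ => by simp only [Pi.smul_apply, smul_eq_mul]; ring

theorem ip_smul_right (s : ℝ) (u w : Fin n → ℝ) : ip w (s • u) = s * ip w u := by
  rw [ip_comm, ip_smul_left, ip_comm u]

/-- the scaling factor `1/√2` -/
theorem exists_s : ∃ s : ℝ, s ^ 2 = 1 / 2 := by
  refine ⟨Real.sqrt (1 / 2), ?_⟩
  exact Real.sq_sqrt (by norm_num)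

variable {R : T4 n} {m M : ℝ}

theorem bound2 (hK : ∀ u v : Fin n → ℝ, nrm u = 1 → nrm v = 1 → ∑ i, u i * v i = 0 →
    m ≤ K2 R u v ∧ K2 R u v ≤ M) (u v : Fin n → ℝ) (hu : ip u u = 2) (hv : ip v v = 1)
    (huv : ip u v = 0) : 2 * m ≤ F R u v u v ∧ F R u v u v ≤ 2 * M := by
  obtain ⟨s, hs⟩ := exists_s
  have h := hK (s • u) v (by rw [nrm_ip, ip_smul_left, ip_smul_right, hu]; linarith)
    (by rw [nrm_ip, hv]) (by
      have : ip (s • u) v = 0 := by rw [ip_smul_left, huv, mul_zero]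
      exact this)
  rw [K2_eq, F_smul13, hs] at h
  constructor <;> linarith [h.1, h.2]

theorem step1 (hR : IsCurv R) (hK : ∀ u v : Fin n → ℝ, nrm u = 1 → nrm v = 1 →
    ∑ i, u i * v i = 0 → m ≤ K2 R u v ∧ K2 R u v ≤ M) (x y z : Fin n → ℝ)
    (hx : ip x x = 1) (hy : ip y y = 1) (hz : ip z z = 1) (hxy : ip x y = 0)
    (hxz : ip x z = 0) (hyz : ip y z = 0) : |F R x y z y| ≤ (M - m) / 2 := by
  have hzx : ip z x = 0 := by rw [ip_comm, hxz]
  have hzy : ip z y = 0 := by rw [ip_comm, hyz]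
  have h1 := bound2 hK (x + z) y
    (by rw [ip_add_left, ip_add_right, ip_add_right, hx, hz, hxz, hzx]; norm_num) hy
    (by rw [ip_add_left, hxy, hzy, add_zero])
  have h2 := bound2 hK (x - z) y
    (by rw [ip_sub_left, ip_sub_right, ip_sub_right, hx, hz, hxz, hzx]; norm_num) hy
    (by rw [ip_sub_left, hxy, hzy, sub_zero])
  have h3 := F_polar1 R x y z
  rw [F_pair hR z y x y] at h3
  rw [abs_le]
  constructor <;> linarith [h1.1, h1.2, h2.1, h2.2]

theorem step1' (hR : IsCurv R) (hK : ∀ u v : Fin n → ℝ, nrm u = 1 → nrm v = 1 →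
    ∑ i, u i * v i = 0 → m ≤ K2 R u v ∧ K2 R u v ≤ M) (x y z : Fin n → ℝ)
    (hx : ip x x = 1) (hy : ip y y = 2) (hz : ip z z = 1) (hxy : ip x y = 0)
    (hxz : ip x z = 0) (hyz : ip y z = 0) : |F R x y z y| ≤ M - m := by
  obtain ⟨s, hs⟩ := exists_s
  have h := step1 hR hK x (s • y) z hx
    (by rw [ip_smul_left, ip_smul_right, hy]; linarith) hz
    (by rw [ip_smul_right, hxy, mul_zero]) hxz (by rw [ip_smul_left, hyz, mul_zero])
  rw [F_smul24, hs, abs_le] at h
  rw [abs_le]
  constructor <;> linarith [h.1, h.2]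

theorem step2 (hR : IsCurv R) (hK : ∀ u v : Fin n → ℝ, nrm u = 1 → nrm v = 1 →
    ∑ i, u i * v i = 0 → m ≤ K2 R u v ∧ K2 R u v ≤ M) (x y z w : Fin n → ℝ)
    (hx : ip x x = 1) (hy : ip y y = 1) (hz : ip z z = 1) (hw : ip w w = 1)
    (hxy : ip x y = 0) (hxz : ip x z = 0) (hxw : ip x w = 0) (hyz : ip y z = 0)
    (hyw : ip y w = 0) (hzw : ip z w = 0) : |F R x y z w - F R y z x w| ≤ M - m := by
  have hwy : ip w y = 0 := by rw [ip_comm, hyw]
  have hwz : ip w z = 0 := by rw [ip_comm, hzw]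
  have h1 := step1' hR hK x (y + w) z hx
    (by rw [ip_add_left, ip_add_right, ip_add_right, hy, hw, hyw, hwy]; norm_num) hz
    (by rw [ip_add_right, hxy, hxw, add_zero]) hxz (by rw [ip_add_left, hyz, hwz, add_zero])
  have h2 := step1' hR hK x (y - w) z hx
    (by rw [ip_sub_left, ip_sub_right, ip_sub_right, hy, hw, hyw, hwy]; norm_num) hz
    (by rw [ip_sub_right, hxy, hxw, sub_zero]) hxz (by rw [ip_sub_left, hyz, hwz, sub_zero])
  have h3 := F_polar2 R x y z w
  rw [F_pair hR x w z y, F_a12 hR z y x w] at h3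
  rw [abs_le] at h1 h2 ⊢
  constructor <;> linarith [h1.1, h1.2, h2.1, h2.2]

end BGaux

open BGaux in
theorem goal_BG : Goal_BG := by
  intro n R m M hR hK e he
  have hi : ∀ i j, ip (e i) (e j) = if i = j then 1 else 0 := fun i j => he i j
  have hii : ∀ i, ip (e i) (e i) = 1 := fun i => by rw [hi, if_pos rfl]
  have hij : ∀ i j, i ≠ j → ip (e i) (e j) = 0 := fun i j h => by rw [hi, if_neg h]
  have h1 := step2 hR hK (e 0) (e 1) (e 2) (e 3) (hii 0) (hii 1) (hii 2) (hii 3)
    (hij _ _ (by decide)) (hij _ _ (by decide)) (hij _ _ (by decide)) (hij _ _ (by decide))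
    (hij _ _ (by decide)) (hij _ _ (by decide))
  have h2 := step2 hR hK (e 1) (e 0) (e 2) (e 3) (hii 1) (hii 0) (hii 2) (hii 3)
    (hij _ _ (by decide)) (hij _ _ (by decide)) (hij _ _ (by decide)) (hij _ _ (by decide))
    (hij _ _ (by decide)) (hij _ _ (by decide))
  rw [F_a12 hR (e 1) (e 0), F_a12 hR (e 0) (e 2)] at h2
  have h3 := F_bian hR (e 0) (e 1) (e 2) (e 3)
  change |F R (e 0) (e 1) (e 2) (e 3)| ≤ 2 / 3 * (M - m)
  rw [abs_le] at h1 h2 ⊢
  constructor <;> linarith [h1.1, h1.2, h2.1, h2.2]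

end Pool.Agent.Helper47.RFn
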