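import Pool.Agent.Helper47.RFn.CoreN

/-! MP_c98eff_gt, packet RFn-C9: rules for `C¹` families (adapted from `Helper77/RF/C9.lean`). -/

namespace Pool.Agent.Helper47.RFn

open Finset

namespace C9aux

variable {n : ℕ}

theorem Ew_append (w : List (Fin (n + 1))) (i : Fin (n + 1)) (f : EE n → ℝ) :
    Ew (w ++ [i]) f = Ew w (ed i f) := by
  induction w with
  | nil => rfl
  | cons j w ih =>
    change ed j (Ew (w ++ [i]) f) = ed j (Ew w (ed i f))
    rw [ih]

theorem ed_zero_pt (i : Fin (n + 1)) (f : EE n → ℝ) : ed i f 0 = 0 := by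
  unfold ed
  rw [norm_zero, zero_mul]

section rules
variable (hC1 : Goal_C1) (hC2 : Goal_C2)
include hC1 hC2

theorem Ew_add (w : List (Fin (n + 1))) {f h : EE n → ℝ} (hf : Sm f) (hh : Sm h) :
    Ew w (fun x => f x + h x) = fun x => Ew w f x + Ew w h x := by
  induction w with
  | nil => rfl
  | cons j w ih =>
    change ed j (Ew w (fun x => f x + h x)) = fun x => ed j (Ew w f) x + ed j (Ew w h) x
    rw [ih]
    funext x
    exact (hC2 n).2.1 j _ _ x ((hC1 n).2.2.2.2.2.2.2.2.2.2.1 f w hf) ((hC1 n).2.2.2.2.2.2.2.2.2.2.1 h w hh)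

theorem Ew_sub (w : List (Fin (n + 1))) {f h : EE n → ℝ} (hf : Sm f) (hh : Sm h) :
    Ew w (fun x => f x - h x) = fun x => Ew w f x - Ew w h x := by
  induction w with
  | nil => rfl
  | cons j w ih =>
    change ed j (Ew w (fun x => f x - h x)) = fun x => ed j (Ew w f) x - ed j (Ew w h) x
    rw [ih]
    funext x
    exact (hC2 n).2.2.1 j _ _ x ((hC1 n).2.2.2.2.2.2.2.2.2.2.1 f w hf) ((hC1 n).2.2.2.2.2.2.2.2.2.2.1 h w hh)

omit hC1 in
theorem Ew_neg (w : List (Fin (n + 1))) (f : EE n → ℝ) :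
    Ew w (fun x => - f x) = fun x => - Ew w f x := by
  induction w with
  | nil => rfl
  | cons j w ih =>
    change ed j (Ew w (fun x => - f x)) = fun x => - ed j (Ew w f) x
    rw [ih]
    funext x
    exact (hC2 n).2.2.2.1 j _ x

omit hC1 in
theorem Ew_const (w : List (Fin (n + 1))) (c : ℝ) :
    Ew w (fun _ => c) = fun _ => if w = [] then c else 0 := by
  induction w with
  | nil => simp [Ew]
  | cons j w ih =>
    change ed j (Ew w (fun _ => c)) = _
    rw [ih]
    funext x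
    rw [(hC2 n).1]
    simp

end rules

/-- the derivative property for words of length at most `N` -/
def DW (I : Set ℝ) (N : ℕ) (f f' : ℝ → EE n → ℝ) : Prop :=
  ∀ w : List (Fin (n + 1)), w.length ≤ N → ∀ x, x ≠ 0 → ∀ t ∈ I,
    HasDerivWithinAt (fun s => Ew w (f s) x) (Ew w (f' t) x) I t

theorem DW_congr {I : Set ℝ} {N : ℕ} {f f' g g' : ℝ → EE n → ℝ} (h : DW I N f f')
    (h1 : ∀ t ∈ I, g t = f t) (h2 : ∀ t ∈ I, g' t = f' t) : DW I N g g' := by
  intro w hw x hx t ht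
  have h3 := h w hw x hx t ht
  rw [h2 t ht]
  refine h3.congr (fun s hs => ?_) ?_
  · rw [h1 s hs]
  · rw [h1 t ht]

theorem DW_mono {I : Set ℝ} {N m : ℕ} {f f' : ℝ → EE n → ℝ} (h : DW I N f f') (hm : m ≤ N) :
    DW I m f f' := fun w hw => h w (hw.trans hm)

theorem DW_E {I : Set ℝ} {N : ℕ} {f f' : ℝ → EE n → ℝ} (h : DW I (N + 1) f f') (i : Fin (n + 1)) :
    DW I N (fun t => ed i (f t)) (fun t => ed i (f' t)) := by
  intro w hw x hx t ht
  have h1 := h (w ++ [i]) (by simp; omega) x hx t ht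
  simp only [Ew_append] at h1
  exact h1

theorem DW_step {I : Set ℝ} {N : ℕ} {f f' : ℝ → EE n → ℝ}
    (h0 : ∀ x, x ≠ 0 → ∀ t ∈ I, HasDerivWithinAt (fun s => f s x) (f' t x) I t)
    (h : ∀ i, DW I N (fun t => ed i (f t)) (fun t => ed i (f' t))) : DW I (N + 1) f f' := by
  intro w hw x hx t ht
  rcases List.eq_nil_or_concat w with rfl | ⟨w', i, rfl⟩
  · exact h0 x hx t ht
  · rw [List.concat_eq_append] at hw ⊢
    simp only [Ew_append]
    refine h i w' ?_ x hx t ht
    rw [List.length_append] at hw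
    simp only [List.length_singleton] at hw
    omega

theorem DW_zero {I : Set ℝ} {f f' : ℝ → EE n → ℝ}
    (h0 : ∀ x, x ≠ 0 → ∀ t ∈ I, HasDerivWithinAt (fun s => f s x) (f' t x) I t) :
    DW I 0 f f' := by
  intro w hw x hx t ht
  have : w = [] := List.eq_nil_of_length_eq_zero (by omega)
  subst this
  exact h0 x hx t ht

section rules2
variable (hC1 : Goal_C1) (hC2 : Goal_C2)
include hC1 hC2

theorem DW_add {I : Set ℝ} {N : ℕ} {f f' h h' : ℝ → EE n → ℝ} (h1 : DW I N f f')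
    (h2 : DW I N h h') (hf : ∀ t ∈ I, Sm (f t)) (hf' : ∀ t ∈ I, Sm (f' t))
    (hh : ∀ t ∈ I, Sm (h t)) (hh' : ∀ t ∈ I, Sm (h' t)) :
    DW I N (fun t x => f t x + h t x) (fun t x => f' t x + h' t x) := by
  intro w hw x hx t ht
  have h3 := (h1 w hw x hx t ht).add (h2 w hw x hx t ht)
  rw [Ew_add hC1 hC2 w (hf' t ht) (hh' t ht)]
  refine h3.congr (fun s hs => ?_) ?_
  · rw [Ew_add hC1 hC2 w (hf s hs) (hh s hs)]
    rfl
  · rw [Ew_add hC1 hC2 w (hf t ht) (hh t ht)]
    rfl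

theorem DW_mul {I : Set ℝ} : ∀ {N : ℕ} {f f' h h' : ℝ → EE n → ℝ}, DW I N f f' →
    DW I N h h' → (∀ t ∈ I, Sm (f t)) → (∀ t ∈ I, Sm (f' t)) →
    (∀ t ∈ I, Sm (h t)) → (∀ t ∈ I, Sm (h' t)) →
    DW I N (fun t x => f t x * h t x) (fun t x => f' t x * h t x + f t x * h' t x) := by
  intro N
  induction N with
  | zero =>
    intro f f' h h' h1 h2 hf hf' hh hh'
    refine DW_zero fun x hx t ht => ?_
    exact (h1 [] le_rfl x hx t ht).mul (h2 [] le_rfl x hx t ht)
  | succ N ih =>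
    intro f f' h h' h1 h2 hf hf' hh hh'
    have mul_ := (hC1 n).2.2.2.1
    have E_ := (hC1 n).2.2.2.2.2.2.2.2.1
    have dmul := (hC2 n).2.2.2.2.1
    have dadd := (hC2 n).2.1
    refine DW_step (fun x hx t ht => ?_) fun i => ?_
    · exact (h1 [] (by simp) x hx t ht).mul (h2 [] (by simp) x hx t ht)
    · have h3 := ih (DW_E h1 i) (DW_mono h2 (Nat.le_succ N)) (fun t ht => E_ _ i (hf t ht))
        (fun t ht => E_ _ i (hf' t ht)) hh hh'
      have h4 := ih (DW_mono h1 (Nat.le_succ N)) (DW_E h2 i) hf hf'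
        (fun t ht => E_ _ i (hh t ht)) (fun t ht => E_ _ i (hh' t ht))
      have add_ := (hC1 n).2.1
      have h5 := DW_add hC1 hC2 h3 h4
        (fun t ht => mul_ _ _ (E_ _ i (hf t ht)) (hh t ht))
        (fun t ht => add_ _ _ (mul_ _ _ (E_ _ i (hf' t ht)) (hh t ht))
          (mul_ _ _ (E_ _ i (hf t ht)) (hh' t ht)))
        (fun t ht => mul_ _ _ (hf t ht) (E_ _ i (hh t ht)))
        (fun t ht => add_ _ _ (mul_ _ _ (hf' t ht) (E_ _ i (hh t ht)))
          (mul_ _ _ (hf t ht) (E_ _ i (hh' t ht))))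
      refine DW_congr h5 (fun t ht => ?_) fun t ht => ?_
      · funext x
        exact dmul i _ _ x (hf t ht) (hh t ht)
      · funext x
        rw [dadd i _ _ x (mul_ _ _ (hf' t ht) (hh t ht)) (mul_ _ _ (hf t ht) (hh' t ht)),
          dmul i _ _ x (hf' t ht) (hh t ht), dmul i _ _ x (hf t ht) (hh' t ht)]
        ring

theorem DW_comp {I : Set ℝ} {U : Set ℝ} (hU : IsOpen U) : ∀ {N : ℕ} {f f' : ℝ → EE n → ℝ}
    {F F' : ℝ → ℝ}, ContDiffOn ℝ oo F U → (∀ y ∈ U, HasDerivAt F (F' y) y) → DW I N f f' →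
    (∀ t ∈ I, Sm (f t)) → (∀ t ∈ I, Sm (f' t)) →
    (∀ t ∈ I, ∀ x, x ≠ 0 → f t x ∈ U) →
    DW I N (fun t x => F (f t x)) (fun t x => F' (f t x) * f' t x) := by
  intro N
  induction N with
  | zero =>
    intro f f' F F' hF hF' h1 hf hf' hmem
    refine DW_zero fun x hx t ht => ?_
    exact (hF' _ (hmem t ht x hx)).comp_hasDerivWithinAt t (h1 [] le_rfl x hx t ht)
  | succ N ih =>
    intro f f' F F' hF hF' h1 hf hf' hmem
    have mul_ := (hC1 n).2.2.2.1
    have E_ := (hC1 n).2.2.2.2.2.2.2.2.1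
    have comp_ := (hC1 n).2.2.2.2.2.2.2.1
    have dmul := (hC2 n).2.2.2.2.1
    have dcomp := (hC2 n).2.2.2.2.2.2.2
    have hd1 : ContDiffOn ℝ oo F' U := by
      have h2 : ContDiffOn ℝ oo (deriv F) U := hF.deriv_of_isOpen hU le_rfl
      exact h2.congr fun y hy => (hF' y hy).deriv.symm
    have hd2 : ∀ y ∈ U, HasDerivAt F' (deriv F' y) y := by
      intro y hy
      have h2 : ContDiffAt ℝ oo F' y := hd1.contDiffAt (hU.mem_nhds hy)
      exact (h2.differentiableAt (by simp)).hasDerivAt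
    have hchain : ∀ (G G' : ℝ → ℝ), (∀ y ∈ U, HasDerivAt G (G' y) y) → ∀ t ∈ I, ∀ i,
        ed i (fun x => G (f t x)) = fun x => G' (f t x) * ed i (f t) x := by
      intro G G' hG t ht i
      funext x
      by_cases hx : x = 0
      · rw [hx, ed_zero_pt, ed_zero_pt, mul_zero]
      · exact dcomp i (f t) G (G' (f t x)) x (hf t ht) hx (hG _ (hmem t ht x hx))
    refine DW_step (fun x hx t ht => ?_) fun i => ?_
    · exact (hF' _ (hmem t ht x hx)).comp_hasDerivWithinAt t (h1 [] (by simp) x hx t ht)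
    · have h2 := ih hd1 hd2 (DW_mono h1 (Nat.le_succ N)) hf hf' hmem
      have hs1 : ∀ t ∈ I, Sm (fun x => F' (f t x)) := fun t ht =>
        comp_ (f t) F' U hU hd1 (hf t ht) (hmem t ht)
      have hd3 : ContDiffOn ℝ oo (deriv F') U := hd1.deriv_of_isOpen hU le_rfl
      have hs2 : ∀ t ∈ I, Sm (fun x => deriv F' (f t x)) := fun t ht =>
        comp_ (f t) (deriv F') U hU hd3 (hf t ht) (hmem t ht)
      have h3 := DW_mul hC1 hC2 h2 (DW_E h1 i) hs1
        (fun t ht => mul_ _ _ (hs2 t ht) (hf' t ht)) (fun t ht => E_ _ i (hf t ht))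
        (fun t ht => E_ _ i (hf' t ht))
      refine DW_congr h3 (fun t ht => ?_) fun t ht => ?_
      · exact hchain F F' hF' t ht i
      · funext x
        rw [dmul i _ _ x (hs1 t ht) (hf' t ht), hchain F' (deriv F') hd2 t ht i]
        ring

end rules2

theorem DW_of {I : Set ℝ} {f f' : ℝ → EE n → ℝ} (h : SmFam1 I f f') (N : ℕ) : DW I N f f' :=
  fun w _ => h.der w

theorem of_DW {I : Set ℝ} {f f' : ℝ → EE n → ℝ} (h1 : SmFam I f) (h2 : SmFam I f')
    (h : ∀ N, DW I N f f') : SmFam1 I f f' :=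
  ⟨h1, h2, fun w x hx t ht => h w.length w le_rfl x hx t ht⟩

end C9aux

open C9aux in
theorem goal_C9 (hC1 : Goal_C1) (hC2 : Goal_C2) (hC8 : Goal_C8) : Goal_C9 := by
  intro n I
  obtain ⟨fconst, fadd, fsub, fmul, fneg, fE, fcomp, fsum, _, _⟩ := hC8 n I
  have hconst : ∀ c c' : ℝ → ℝ, ContinuousOn c I → ContinuousOn c' I →
      (∀ t ∈ I, HasDerivWithinAt c (c' t) I t) →
      SmFam1 I (fun t (_ : EE n) => c t) (fun t _ => c' t) := by
    intro c c' h1 h2 h3
    refine ⟨fconst c h1, fconst c' h2, fun w x hx t ht => ?_⟩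
    simp only [Ew_const hC2]
    by_cases hw : w = []
    · simp only [hw, if_true]
      exact h3 t ht
    · simp only [hw, if_false]
      exact hasDerivWithinAt_const _ _ _
  have hadd : ∀ f f' h h' : ℝ → EE n → ℝ, SmFam1 I f f' → SmFam1 I h h' →
      SmFam1 I (fun t x => f t x + h t x) (fun t x => f' t x + h' t x) := by
    intro f f' h h' h1 h2
    exact of_DW (fadd f h h1.fam h2.fam) (fadd f' h' h1.fam' h2.fam') fun N =>
      DW_add hC1 hC2 (DW_of h1 N) (DW_of h2 N) h1.fam.sm h1.fam'.sm h2.fam.sm h2.fam'.sm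
  refine ⟨hconst, hadd, ?_, ?_, ?_, ?_, ?_, ?_⟩
  · intro f f' h h' h1 h2
    refine ⟨fsub f h h1.fam h2.fam, fsub f' h' h1.fam' h2.fam', fun w x hx t ht => ?_⟩
    have h3 := (h1.der w x hx t ht).sub (h2.der w x hx t ht)
    rw [Ew_sub hC1 hC2 w (h1.fam'.sm t ht) (h2.fam'.sm t ht)]
    refine h3.congr (fun s hs => ?_) ?_
    · rw [Ew_sub hC1 hC2 w (h1.fam.sm s hs) (h2.fam.sm s hs)]
      rfl
    · rw [Ew_sub hC1 hC2 w (h1.fam.sm t ht) (h2.fam.sm t ht)]
      rfl
  · intro f f' h h' h1 h2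
    exact of_DW (fmul f h h1.fam h2.fam)
      (fadd _ _ (fmul f' h h1.fam' h2.fam) (fmul f h' h1.fam h2.fam')) fun N =>
      DW_mul hC1 hC2 (DW_of h1 N) (DW_of h2 N) h1.fam.sm h1.fam'.sm h2.fam.sm h2.fam'.sm
  · intro f f' h1
    refine ⟨fneg f h1.fam, fneg f' h1.fam', fun w x hx t ht => ?_⟩
    have h3 := (h1.der w x hx t ht).neg
    simp only [Ew_neg hC2]
    exact h3
  · intro f f' i h1
    exact of_DW (fE f i h1.fam) (fE f' i h1.fam') fun N => DW_E (DW_of h1 (N + 1)) i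
  · intro f f' F F' U hU hF hF' h1 hmem
    have hd1 : ContDiffOn ℝ oo F' U := by
      have h2 : ContDiffOn ℝ oo (deriv F) U := hF.deriv_of_isOpen hU le_rfl
      exact h2.congr fun y hy => (hF' y hy).deriv.symm
    exact of_DW (fcomp f F U hU hF h1.fam hmem)
      (fmul _ _ (fcomp f F' U hU hd1 h1.fam hmem) h1.fam') fun N =>
      DW_comp hC1 hC2 hU hF hF' (DW_of h1 N) h1.fam.sm h1.fam'.sm hmem
  · intro ι s f f' hs
    classical
    induction s using Finset.induction_on with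
    | empty =>
      simp only [Finset.sum_empty]
      exact hconst (fun _ => 0) (fun _ => 0) continuousOn_const continuousOn_const
        fun t _ => hasDerivWithinAt_const _ _ _
    | insert a s ha ih =>
      simp only [Finset.sum_insert ha]
      exact hadd _ _ _ _ (hs a (Finset.mem_insert_self a s))
        (ih fun b hb => hs b (Finset.mem_insert_of_mem hb))

end Pool.Agent.Helper47.RFn
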